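import Pool.Agent.W656.VC5

/-!
# The analytic zero divisor conjecture: integral coefficients suffice, all or nothing

The key step: let `α ∈ ℂ[G]` be nonzero, `f ∈ ℓ²(G)` nonzero and `α * f = 0`. Write
`α = ∑ t_i a_i`, where `t_1, …, t_k` is a basis of the additive group generated by the
coefficients of `α` and `a_i ∈ ℤ[G]`. The function `Δ(h) = det (a_i(h_j))` is a nonzero element of
`ℤ[G^k]`, and `Δ * (f ⊗ ⋯ ⊗ f) (g) = det ((a_i * f)(g_j)) = 0`, as `∑ t_i (a_i * f) = 0`.

Further, with `α` and `β` also `α*α ⊗ 1 + 1 ⊗ β*β` and `α ⊗ β` are defined over `ℤ`. Their kernel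
dimensions are `v w` and `v + w - v w`, if `v` and `w` are the ones of `α` and `β`. From a single
value in the open interval `(0, 1)` one obtains a dense set of values.
-/

set_option autoImplicit false

noncomputable section

namespace Pool.Agent.Results.MP_0f25e6_al.AllOrNothing

/-- The kernel of left multiplication by the matrix `A` over `ℂ[G]` on `ℓ²(G)^n`. -/
def kernel {G : Type} [Group G] {m n : ℕ} (A : Matrix (Fin m) (Fin n) (G →₀ ℂ)) :
    Set (lp (fun _ : Fin n × G => ℂ) 2) :=
  {x | ∀ (i : Fin m) (g : G), ∑ j : Fin n, (A i j).sum (fun h c => c * x (j, h⁻¹ * g)) = 0}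

open Classical in
/-- The von Neumann rank of `A`: the sum over `j` of the squared distance from the basis vector at
`(j, 1)` to the kernel, that is, the trace of the projection onto the orthogonal complement of the
kernel. -/
def rank {G : Type} [Group G] {m n : ℕ} (A : Matrix (Fin m) (Fin n) (G →₀ ℂ)) : ℝ :=
  ∑ j : Fin n, (Metric.infDist
    (lp.single 2 (j, (1 : G)) (1 : ℂ) : lp (fun _ : Fin n × G => ℂ) 2) (kernel A)) ^ 2

/-- An element of the group algebra as a matrix with one entry. -/
def entry {G : Type} (α : G →₀ ℂ) : Matrix (Fin 1) (Fin 1) (G →₀ ℂ) := fun _ _ => α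

/-- For each sequence of groups in `C` there is a group in `C` in which all the finite direct
products `G 0 × ⋯ × G (n-1)` embed. -/
def ProductClosed (C : (G : Type) → [Group G] → Prop) : Prop :=
  ∀ (G : ℕ → Type) [∀ i, Group (G i)], (∀ i, C (G i)) →
    ∃ (H : Type) (_ : Group H), C H ∧
      ∀ n : ℕ, ∃ f : (∀ i : Fin n, G i) →* H, Function.Injective f

/-- The analytic zero divisor conjecture for the group `G` and coefficients in the set `S`: for all
nonzero `α` in `ℂ[G]` with coefficients in `S` and all nonzero `f` in `ℓ²(G)` one has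
`α * f ≠ 0`. -/
def Analytic (S : Set ℂ) (G : Type) [Group G] : Prop :=
  ∀ (α : G →₀ ℂ) (f : G → ℂ), (∀ g, α g ∈ S) → α ≠ 0 → Memℓp f 2 → f ≠ 0 →
    ∃ g : G, α.sum (fun h c => c * f (h⁻¹ * g)) ≠ 0

/-- The class of all torsion-free groups is product closed, and so is the isomorphism class of a
group which contains its own square. For each product closed class `C` the following are
equivalent.

1. The analytic zero divisor conjecture holds for all groups in `C` (complex coefficients).
2. It holds for all groups in `C` and all `α` with coefficients in `ℤ`.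
3. All nonzero matrices over `ℂ[G]`, `G` in `C`, have rank at least one.
4. For some `ε > 0` all nonzero elements of `ℤ[G]`, `G` in `C`, have rank at least `ε`.
5. For each `G` in `C` the ranks of the elements of `ℤ[G]` are not dense in `[0, 1]`. -/
theorem result :
    ProductClosed (fun G _ => ∀ g : G, ∀ n : ℕ, 0 < n → g ^ n = 1 → g = 1) ∧
    (∀ (G : Type) [Group G] (f : G × G →* G), Function.Injective f →
      ProductClosed (fun H _ => Nonempty (H ≃* G))) ∧
    ∀ C : (G : Type) → [Group G] → Prop, ProductClosed C → List.TFAE [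
      ∀ (G : Type) [Group G], C G → Analytic Set.univ G,
      ∀ (G : Type) [Group G], C G → Analytic (Set.range (Int.cast : ℤ → ℂ)) G,
      ∀ (G : Type) [Group G], C G → ∀ (m n : ℕ) (A : Matrix (Fin m) (Fin n) (G →₀ ℂ)), A ≠ 0 →
        1 ≤ rank A,
      ∃ ε : ℝ, 0 < ε ∧ ∀ (G : Type) [Group G], C G → ∀ α : G →₀ ℂ, (∀ g, ∃ n : ℤ, α g = n) →
        α ≠ 0 → ε ≤ rank (entry α),
      ∀ (G : Type) [Group G], C G → ∃ a b : ℝ, 0 ≤ a ∧ a < b ∧ b ≤ 1 ∧
        ∀ α : G →₀ ℂ, (∀ g, ∃ n : ℤ, α g = n) → ¬ (a < rank (entry α) ∧ rank (entry α) < b)] := by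
  refine ⟨W656.VA.pc_torsionFree, fun G _ f hf => W656.VA.pc_single f hf, fun C hC => ?_⟩
  have h := W656.VA.azdc_tfae C hC
  have e1 : (∀ (G : Type) [Group G], C G → Analytic Set.univ G) ↔
      ∀ (G : Type) [Group G], C G → ∀ (α : G →₀ ℂ) (f : G → ℂ), α ≠ 0 → Memℓp f 2 → f ≠ 0 →
        ∃ g : G, α.sum (fun h c => c * f (h⁻¹ * g)) ≠ 0 :=
    ⟨fun h G _ hG α f => h G hG α f (fun _ => Set.mem_univ _), fun h G _ hG α f _ => h G hG α f⟩
  have e2 : (∀ (G : Type) [Group G], C G → Analytic (Set.range (Int.cast : ℤ → ℂ)) G) ↔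
      ∀ (G : Type) [Group G], C G → ∀ (α : G →₀ ℂ) (f : G → ℂ), (∀ g, ∃ n : ℤ, α g = n) →
        α ≠ 0 → Memℓp f 2 → f ≠ 0 → ∃ g : G, α.sum (fun h c => c * f (h⁻¹ * g)) ≠ 0 := by
    constructor
    · intro h G _ hG α f hα
      exact h G hG α f (fun g => by obtain ⟨n, hn⟩ := hα g; exact ⟨n, hn.symm⟩)
    · intro h G _ hG α f hα
      exact h G hG α f (fun g => by obtain ⟨n, hn⟩ := hα g; exact ⟨n, hn.symm⟩)
  rw [e1, e2]
  exact h

end Pool.Agent.Results.MP_0f25e6_al.AllOrNothing
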