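import Pool.Agent.W649.ZL.Supp

set_option autoImplicit false

universe u

namespace Pool.Agent.Results.MP_0f25e6_al.CosetExceptions

/-- `α * f` is nonzero for every nonzero square-summable `f`, where
`(α * f)(g) = ∑ α(k) f(k⁻¹ g)`. -/
def Regular {G : Type u} [Group G] (α : G →₀ ℂ) : Prop :=
  ∀ f : G → ℂ, Memℓp f 2 → f ≠ 0 → ∃ g : G, ∑ k ∈ α.support, α k * f (k⁻¹ * g) ≠ 0

/-- All square-summable `f` with `α * f = 0`. -/
def kernel {G : Type u} [Group G] (α : G →₀ ℂ) : Set (lp (fun _ : G => ℂ) 2) :=
  {f | ∀ g : G, ∑ k ∈ α.support, α k * f (k⁻¹ * g) = 0}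

open Classical in
/-- The von Neumann dimension of the kernel of left convolution by `α`: one minus the square of the
distance from the basis vector at the identity of `G` to the kernel (this is the squared length of
the projection of that vector to the kernel). -/
noncomputable def kerDim {G : Type u} [Group G] (α : G →₀ ℂ) : ℝ :=
  1 - Metric.infDist (lp.single 2 (1 : G) (1 : ℂ)) (kernel α) ^ 2

theorem kerDim_eq {G : Type u} [Group G] (α : G →₀ ℂ) :
    kerDim α = W649.ZL.vd (LinearMap.ker
      (W649.ZL.cop α : W649.ZL.EE G Unit →ₗ[ℂ] W649.ZL.EE G Unit)) :=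
  W649.ZL.kerDim_eq_vd α

/-- A group is locally indicable if every nontrivial finitely generated subgroup has a nontrivial
homomorphism to the group of integers. -/
def LocallyIndicable (H : Type u) [Group H] : Prop :=
  ∀ K : Subgroup H, K.FG → K ≠ ⊥ → ∃ φ : K →* Multiplicative ℤ, ∃ k, φ k ≠ 1

/-- Let `G` be any group, `H` a locally indicable subgroup of `G` (for instance the subgroup
generated by an element of infinite order), `t H` a left coset and `β` any element of the complex
group algebra of `G`. For every finite subset `F` of `t H` and every `d > 0`, only finitely many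
elements `α` supported on `F` are such that the kernel of `β + α` on `ℓ²(G)` has von Neumann
dimension at least `d`; and for every countable subset `C` of `t H`, for all but countably many
elements `α` supported on `C`, `(β + α) * f ≠ 0` for all nonzero `f` in `ℓ²(G)`. -/
theorem result {G : Type u} [Group G] (H : Subgroup G) (hH : LocallyIndicable H) (t : G)
    (β : G →₀ ℂ) :
    (∀ F : Finset G, (∀ x ∈ F, t⁻¹ * x ∈ H) → ∀ d : ℝ, 0 < d →
      {α : G →₀ ℂ | α.support ⊆ F ∧ d ≤ kerDim (β + α)}.Finite) ∧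
    (∀ C : Set G, C.Countable → (∀ x ∈ C, t⁻¹ * x ∈ H) →
      {α : G →₀ ℂ | (∀ x ∈ α.support, x ∈ C) ∧ ¬ Regular (β + α)}.Countable) := by
  classical
  have hfin : ∀ F : Finset G, (∀ x ∈ F, t⁻¹ * x ∈ H) → ∀ d : ℝ, 0 < d →
      {α : G →₀ ℂ | α.support ⊆ F ∧ d ≤ kerDim (β + α)}.Finite := by
    intro F hF d hd
    have h1 := W649.ZL.fam_finite (W649.ZL.fam (fun _ : Unit => β) F)
      (W649.ZL.fam_eqv _ F) d hd (fun y hy => W649.ZL.fam_nice _ F t H hH hF y hy)
    refine (h1.image (W649.ZL.ofF F)).subset ?_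
    rintro α ⟨hα, hd'⟩
    refine ⟨fun x : F => α x, ?_, W649.ZL.ofF_eq F α hα⟩
    change d ≤ W649.ZL.vd _
    rw [W649.ZL.lin_fam, W649.ZL.ofF_eq F α hα]
    have h2 : (∑ _i : Unit, (1 : ℂ) • β + α) = β + α := by simp
    rw [h2, ← kerDim_eq]
    exact hd'
  refine ⟨hfin, fun C hC hCH => ?_⟩
  -- finite subsets of the countable set
  have hsub : {α : G →₀ ℂ | (∀ x ∈ α.support, x ∈ C) ∧ ¬ Regular (β + α)}
      ⊆ ⋃ F ∈ {F : Finset G | (F : Set G) ⊆ C}, ⋃ n : ℕ,
        {α : G →₀ ℂ | α.support ⊆ F ∧ 1 / ((n : ℝ) + 1) ≤ kerDim (β + α)} := by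
    rintro α ⟨hα, hreg⟩
    rw [Set.mem_iUnion₂]
    refine ⟨α.support, fun x hx => hα x hx, ?_⟩
    rw [Set.mem_iUnion]
    have h1 : 0 < kerDim (β + α) := by
      by_contra hcon
      push Not at hcon
      apply hreg
      apply (W649.ZL.regular_iff (β + α)).2
      apply W649.ZL.injective_of_vd_eq_zero _ (W649.ZL.cop_eqv _)
      rw [← kerDim_eq]
      exact hcon
    obtain ⟨n, hn⟩ := exists_nat_one_div_lt h1
    exact ⟨n, subset_rfl, hn.le⟩
  refine Set.Countable.mono hsub ?_
  apply Set.Countable.biUnion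
  · have := hC.to_subtype
    refine (Set.countable_range
      (fun F : Finset C => F.map (Function.Embedding.subtype (fun x => x ∈ C)))).mono ?_
    intro F hF
    refine ⟨F.subtype (fun x => x ∈ C), ?_⟩
    ext x
    simp only [Finset.mem_map, Finset.mem_subtype, Function.Embedding.subtype_apply]
    constructor
    · rintro ⟨y, hy, rfl⟩
      exact hy
    · intro hx
      exact ⟨⟨x, hF hx⟩, hx, rfl⟩
  · intro F hF
    apply Set.countable_iUnion
    intro n
    exact (hfin F (fun x hx => hCH x (hF hx)) _ (by positivity)).countable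

end Pool.Agent.Results.MP_0f25e6_al.CosetExceptions
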