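import Pool.Agent.W649.ZL.Supp

set_option autoImplicit false

universe u

namespace Pool.Agent.Results.MP_0f25e6_al.SimultaneousShift

/-- `α * f` is nonzero for every nonzero square-summable `f`, where
`(α * f)(g) = ∑ α(k) f(k⁻¹ g)`. -/
def Regular {G : Type u} [Group G] (α : G →₀ ℂ) : Prop :=
  ∀ f : G → ℂ, Memℓp f 2 → f ≠ 0 → ∃ g : G, ∑ k ∈ α.support, α k * f (k⁻¹ * g) ≠ 0

/-- A group is locally indicable if every nontrivial finitely generated subgroup has a nontrivial
homomorphism to the group of integers. -/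
def LocallyIndicable (H : Type u) [Group H] : Prop :=
  ∀ K : Subgroup H, K.FG → K ≠ ⊥ → ∃ φ : K →* Multiplicative ℤ, ∃ k, φ k ≠ 1

/-- Let `G` be any group, `M` a finite dimensional linear subspace of the complex group algebra of
`G`, and `F` a finite subset, with more than `dim M` elements, of a left coset `t H` of a locally
indicable subgroup `H` (for instance `F = {1, g, g², …, g^m}` with `m = dim M` and `g` of infinite
order). Then there is one element `α` supported on `F` such that `(β + α) * f ≠ 0` for all `β` in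
`M` and all nonzero `f` in `ℓ²(G)`. -/
theorem result {G : Type u} [Group G] (M : Submodule ℂ (G →₀ ℂ)) [FiniteDimensional ℂ M]
    (H : Subgroup G) (hH : LocallyIndicable H) (t : G) (F : Finset G)
    (hF : ∀ x ∈ F, t⁻¹ * x ∈ H) (hcard : Module.finrank ℂ M < F.card) :
    ∃ α : G →₀ ℂ, α.support ⊆ F ∧ ∀ β ∈ M, Regular (β + α) := by
  classical
  have hfree : Module.Free ℂ M := Module.Free.of_divisionRing ℂ M
  let b := Module.finBasis ℂ M
  obtain ⟨y, hy⟩ := W649.ZL.fam_generic
    (W649.ZL.fam (fun i : Fin (Module.finrank ℂ M) => (b i : G →₀ ℂ)) F)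
    (W649.ZL.fam_eqv _ F) (by simpa using hcard)
    (fun y hy => W649.ZL.fam_nice _ F t H hH hF y hy)
  refine ⟨W649.ZL.ofF F y, W649.ZL.ofF_support F y, fun β hβ => ?_⟩
  apply (W649.ZL.regular_iff _).2
  have h1 := hy (fun i => b.repr ⟨β, hβ⟩ i)
  rw [W649.ZL.lin_fam] at h1
  have h2 : ∑ i, b.repr ⟨β, hβ⟩ i • (b i : G →₀ ℂ) = β := by
    have h3 := congrArg (fun v : M => (v : G →₀ ℂ)) (b.sum_repr ⟨β, hβ⟩)
    simp only [Submodule.coe_sum, Submodule.coe_smul] at h3
    exact h3
  rw [h2] at h1
  exact h1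

end Pool.Agent.Results.MP_0f25e6_al.SimultaneousShift
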