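import Pool.Agent.W649.ZL.Supp

set_option autoImplicit false

universe u

namespace Pool.Agent.Results.MP_0f25e6_al.ZariskiClosed

/-- All square-summable `f` with `∑ a(t) f(t⁻¹ g) = 0` for all `g`, the sum over `t` in `T`. -/
def kernel {G : Type u} [Group G] (T : Finset G) (a : T → ℂ) : Set (lp (fun _ : G => ℂ) 2) :=
  {f | ∀ g : G, ∑ t : T, a t * f ((t : G)⁻¹ * g) = 0}

open Classical in
/-- The von Neumann dimension of the kernel of left convolution by `∑ a(t) t` on `ℓ²(G)`: one minus
the square of the distance from the basis vector at the identity of `G` to the kernel (this is the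
squared length of the projection of that vector to the kernel). -/
noncomputable def kerDim {G : Type u} [Group G] (T : Finset G) (a : T → ℂ) : ℝ :=
  1 - Metric.infDist (lp.single 2 (1 : G) (1 : ℂ)) (kernel T a) ^ 2

/-- A group is locally indicable if every nontrivial finitely generated subgroup has a nontrivial
homomorphism to the group of integers. -/
def LocallyIndicable (H : Type u) [Group H] : Prop :=
  ∀ K : Subgroup H, K.FG → K ≠ ⊥ → ∃ φ : K →* Multiplicative ℤ, ∃ k, φ k ≠ 1

theorem kerDim_eq {G : Type u} [Group G] (T : Finset G) (a : T → ℂ) :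
    kerDim T a = W649.ZL.vd (LinearMap.ker
      (W649.ZL.cop (W649.ZL.ofF T a) : W649.ZL.EE G Unit →ₗ[ℂ] W649.ZL.EE G Unit)) := by
  have h : kernel T a = W649.ZL.kern (W649.ZL.ofF T a) := by
    ext f
    have h1 : ∀ g : G, ∑ t : T, a t * f ((t : G)⁻¹ * g)
        = ∑ k ∈ (W649.ZL.ofF T a).support, (W649.ZL.ofF T a) k * f (k⁻¹ * g) := by
      intro g
      rw [Finset.sum_subset (W649.ZL.ofF_support T a) (by
        intro x _ hx
        rw [Finsupp.notMem_support_iff.1 hx, zero_mul]),
        ← Finset.sum_coe_sort T]
      exact Finset.sum_congr rfl fun t _ => by rw [W649.ZL.ofF_apply]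
    constructor
    · intro hf g
      rw [← h1]; exact hf g
    · intro hf g
      rw [h1]; exact hf g
  unfold kerDim
  rw [h]
  exact W649.ZL.kerDim_eq_vd _

open MvPolynomial in
/-- Let `G` be any group, `T` a finite subset of `G` and `d > 0`. The set of all coefficient vectors
`a` in `ℂ^T` for which the kernel of left convolution by `∑ a(t) t` on `ℓ²(G)` has von Neumann
dimension at least `d` is Zariski closed, and the Krull dimension of its coordinate ring is at most
`|T| - |F|` for every subset `F` of `T` which lies in a left coset of a locally indicable subgroup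
(for instance for every two-element subset `{x, y}` such that `x⁻¹ y` has infinite order). -/
theorem result {G : Type u} [Group G] (T : Finset G) (d : ℝ) (hd : 0 < d) :
    (∃ P : Finset (MvPolynomial T ℂ), ∀ a : T → ℂ, d ≤ kerDim T a ↔ ∀ p ∈ P, eval a p = 0) ∧
    (∀ (F : Finset G) (t : G) (H : Subgroup G), F ⊆ T → LocallyIndicable H →
      (∀ x ∈ F, t⁻¹ * x ∈ H) →
      ringKrullDim (MvPolynomial T ℂ ⧸ vanishingIdeal ℂ {a : T → ℂ | d ≤ kerDim T a})
        ≤ ((T.card - F.card : ℕ) : WithBot ℕ∞)) := by
  classical
  have hset : {a : T → ℂ | d ≤ kerDim T a}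
      = W649.ZL.locus (fun t : T => W649.ZL.Ltr (t : G)) d := by
    ext a
    change d ≤ kerDim T a ↔ d ≤ W649.ZL.vd _
    rw [kerDim_eq, W649.ZL.cop_ofF]
    rfl
  refine ⟨?_, ?_⟩
  · have hcl := W649.ZL.locus_closed (fun t : T => W649.ZL.Ltr (t : G))
      (fun t => W649.ZL.elem_eqv _ _ _) d
    rw [← hset] at hcl
    obtain ⟨P, hP⟩ := (isNoetherianRing_iff_ideal_fg _).1
      (inferInstance : IsNoetherianRing (MvPolynomial T ℂ))
      (vanishingIdeal ℂ {a : T → ℂ | d ≤ kerDim T a})
    refine ⟨P, fun a => ?_⟩
    constructor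
    · intro ha p hp
      have h1 : p ∈ vanishingIdeal ℂ {a : T → ℂ | d ≤ kerDim T a} := by
        rw [← hP]; exact Ideal.subset_span hp
      have h2 := h1 a ha
      rwa [W649.ZL.aeval_ev] at h2
    · intro h
      have h1 : a ∈ zeroLocus ℂ (vanishingIdeal ℂ {a : T → ℂ | d ≤ kerDim T a}) := by
        rw [← hP]
        change a ∈ zeroLocus ℂ (Ideal.span (P : Set (MvPolynomial T ℂ)))
        rw [zeroLocus_span]
        intro p hp
        rw [W649.ZL.aeval_ev]
        exact h p hp
      rw [hcl] at h1
      exact h1
  · intro F t H hFT hH hF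
    rw [hset]
    -- split the index set
    let e : ((T \ F : Finset G) : Type u) ⊕ (F : Type u) ≃ (T : Type u) :=
      { toFun := Sum.elim (fun x => ⟨x.1, (Finset.mem_sdiff.1 x.2).1⟩) (fun x => ⟨x.1, hFT x.2⟩)
        invFun := fun x => if h : x.1 ∈ F then Sum.inr ⟨x.1, h⟩
          else Sum.inl ⟨x.1, Finset.mem_sdiff.2 ⟨x.2, h⟩⟩
        left_inv := by
          rintro (x | x)
          · have := (Finset.mem_sdiff.1 x.2).2
            simp [this]
          · simp
        right_inv := by
          intro x
          by_cases h : x.1 ∈ F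
          · simp [h]
          · simp [h] }
    let b : ((T \ F : Finset G) : Type u) → (G →₀ ℂ) := fun x => Finsupp.single x.1 1
    have h1 := W649.ZL.fam_krull (W649.ZL.fam b F) (W649.ZL.fam_eqv _ F) d hd
      (fun y hy => W649.ZL.fam_nice _ F t H hH hF y hy)
    have hlin : ∀ z : T → ℂ, W649.ZL.lin (fun t : T => W649.ZL.Ltr (t : G)) z
        = W649.ZL.lin (W649.ZL.fam b F) (z ∘ e) := by
      intro z
      unfold W649.ZL.lin
      rw [← e.sum_comp]
      refine Finset.sum_congr rfl fun i _ => ?_
      rcases i with x | x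
      · simp only [W649.ZL.fam, Sum.elim_inl, Function.comp_apply, b]
        rw [W649.ZL.cop_single, one_smul]
        rfl
      · rfl
    let φ : MvPolynomial T ℂ ≃ₐ[ℂ] MvPolynomial (((T \ F : Finset G) : Type u) ⊕ (F : Type u)) ℂ :=
      renameEquiv ℂ e.symm
    have hI : Ideal.map (φ : MvPolynomial T ℂ →+* _)
        (vanishingIdeal ℂ (W649.ZL.locus (fun t : T => W649.ZL.Ltr (t : G)) d))
        = vanishingIdeal ℂ (W649.ZL.locus (W649.ZL.fam b F) d) := by
      apply le_antisymm
      · rw [Ideal.map_le_iff_le_comap]
        intro p hp z hz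
        change aeval z (rename e.symm p) = 0
        rw [aeval_rename]
        apply hp
        change d ≤ W649.ZL.vd _
        rw [hlin]
        have : (z ∘ e.symm) ∘ e = z := by
          funext i; simp
        rw [this]
        exact hz
      · intro q hq
        have h2 : q = φ (rename e q) := by
          change q = rename e.symm (rename e q)
          rw [rename_rename]
          simp
        rw [h2]
        apply Ideal.mem_map_of_mem
        intro z hz
        rw [aeval_rename]
        apply hq
        change d ≤ W649.ZL.vd _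
        rw [← hlin]
        exact hz
    have h3 := ringKrullDim_eq_of_ringEquiv (Ideal.quotientEquiv _ _ φ.toRingEquiv hI.symm)
    rw [h3]
    refine h1.trans ?_
    rw [Fintype.card_coe, Finset.card_sdiff_of_subset hFT]

end Pool.Agent.Results.MP_0f25e6_al.ZariskiClosed
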